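import Mathlib

set_option autoImplicit false
set_option linter.unusedSectionVars false

/-!
# Derived series of subgroups

The derived length of a finite solvable group `G` is at most `C log log |G| + C` (basic facts).
-/

namespace Pool.Agent.J4H54.DL

open Subgroup

variable {G G' : Type*} [Group G] [Group G']

/-- the derived series of a subgroup, as subgroups of the whole group -/
def ds (H : Subgroup G) : ℕ → Subgroup G
  | 0 => H
  | n + 1 => ⁅ds H n, ds H n⁆

@[simp] theorem ds_zero (H : Subgroup G) : ds H 0 = H := rfl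

theorem ds_succ (H : Subgroup G) (n : ℕ) : ds H (n + 1) = ⁅ds H n, ds H n⁆ := rfl

theorem ds_mono {H K : Subgroup G} (h : H ≤ K) (n : ℕ) : ds H n ≤ ds K n := by
  induction n with
  | zero => exact h
  | succ n ih => exact commutator_mono ih ih

theorem ds_add (H : Subgroup G) (m n : ℕ) : ds H (m + n) = ds (ds H m) n := by
  induction n with
  | zero => rfl
  | succ n ih => rw [← add_assoc, ds_succ, ds_succ, ih]

theorem ds_map (f : G →* G') (H : Subgroup G) (n : ℕ) : (ds H n).map f = ds (H.map f) n := by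
  induction n with
  | zero => rfl
  | succ n ih => rw [ds_succ, ds_succ, map_commutator, ih]

theorem ds_succ_le (H : Subgroup G) (n : ℕ) : ds H (n + 1) ≤ ds H n := commutator_le_self _

theorem ds_anti (H : Subgroup G) : Antitone (ds H) := antitone_nat_of_succ_le (ds_succ_le H)

theorem ds_le (H : Subgroup G) (n : ℕ) : ds H n ≤ H := ds_anti H (Nat.zero_le n)

theorem ds_bot (n : ℕ) : ds (⊥ : Subgroup G) n = ⊥ := le_bot_iff.1 (ds_le ⊥ n)

theorem ds_top (n : ℕ) : ds (⊤ : Subgroup G) n = derivedSeries G n := by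
  induction n with
  | zero => rfl
  | succ n ih => rw [ds_succ, ih]; rfl

theorem ds_eq_map (H : Subgroup G) (n : ℕ) : ds H n = (derivedSeries H n).map H.subtype := by
  rw [← ds_top, ds_map]
  congr 1
  rw [← MonoidHom.range_eq_map, Subgroup.range_subtype]

theorem ds_normal (H : Subgroup G) [hH : H.Normal] (n : ℕ) : (ds H n).Normal := by
  induction n with
  | zero => exact hH
  | succ n ih => exact commutator_normal _ _

theorem ds_bot_of_le {H : Subgroup G} {m n : ℕ} (h : m ≤ n) (hm : ds H m = ⊥) : ds H n = ⊥ :=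
  le_bot_iff.1 (hm ▸ ds_anti H h)

/-- composing bounds -/
theorem ds_comp {H K : Subgroup G} {m n : ℕ} (h : ds H m ≤ K) (hK : ds K n = ⊥) :
    ds H (m + n) = ⊥ := by
  rw [ds_add]
  exact le_bot_iff.1 (hK ▸ ds_mono h n)

theorem ds_comp' {H K L : Subgroup G} {m n : ℕ} (h : ds H m ≤ K) (hK : ds K n ≤ L) :
    ds H (m + n) ≤ L := by
  rw [ds_add]
  exact (ds_mono h n).trans hK

/-- solvable subgroups -/
def Slv (H : Subgroup G) : Prop := ∃ n, ds H n = ⊥

theorem Slv.mono {H K : Subgroup G} (h : H ≤ K) (hK : Slv K) : Slv H := by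
  obtain ⟨n, hn⟩ := hK
  exact ⟨n, le_bot_iff.1 (hn ▸ ds_mono h n)⟩

theorem Slv.map {H : Subgroup G} (f : G →* G') (hH : Slv H) : Slv (H.map f) := by
  obtain ⟨n, hn⟩ := hH
  exact ⟨n, by rw [← ds_map, hn, Subgroup.map_bot]⟩

theorem Slv.comm_ne {H : Subgroup G} (hH : Slv H) (h : H ≠ ⊥) : ⁅H, H⁆ ≠ H := by
  intro hc
  obtain ⟨n, hn⟩ := hH
  have : ∀ m, ds H m = H := by
    intro m
    induction m with
    | zero => rfl
    | succ m ih => rw [ds_succ, ih, hc]
  rw [this] at hn
  exact h hn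

theorem two_mul_card_le [Finite G] {H K : Subgroup G} (h : H ≤ K) (hne : H ≠ K) :
    2 * Nat.card H ≤ Nat.card K := by
  obtain ⟨k, hk⟩ := Subgroup.card_dvd_of_le h
  have h1 : 0 < Nat.card H := Nat.card_pos
  have h2 : 0 < Nat.card K := Nat.card_pos
  have h3 : k ≠ 0 := by
    rintro rfl
    omega
  have h4 : k ≠ 1 := by
    rintro rfl
    rw [mul_one] at hk
    exact hne (Subgroup.eq_of_le_of_card_ge h hk.le)
  rw [hk, mul_comm]
  exact Nat.mul_le_mul_left _ (by omega)

/-- the trivial bound -/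
theorem ds_trivial [Finite G] (n : ℕ) : ∀ (H : Subgroup G), Slv H → Nat.card H < 2 ^ (n + 1) →
    ds H n = ⊥ := by
  induction n with
  | zero =>
    intro H _ h
    have h1 : 0 < Nat.card H := Nat.card_pos
    have h2 : Nat.card H = 1 := by omega
    exact Subgroup.eq_bot_of_card_eq H h2
  | succ n ih =>
    intro H hH h
    by_cases hb : H = ⊥
    · rw [hb]
      exact ds_bot _
    · have h1 := two_mul_card_le (commutator_le_self H) (hH.comm_ne hb)
      rw [Nat.add_comm, ds_add]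
      refine ih _ (hH.mono (ds_le H 1)) ?_
      have h2 : ds H 1 = ⁅H, H⁆ := rfl
      rw [h2]
      have h3 : 2 ^ (n + 1 + 1) = 2 * 2 ^ (n + 1) := by ring
      omega

/-! ### the three subgroups lemma modulo a normal subgroup -/

theorem map_mk_eq_bot {N : Subgroup G} [N.Normal] {H : Subgroup G} :
    H.map (QuotientGroup.mk' N) = ⊥ ↔ H ≤ N := by
  rw [Subgroup.map_eq_bot_iff, QuotientGroup.ker_mk']

theorem three {X Y Z N : Subgroup G} [N.Normal] (h1 : ⁅⁅Y, Z⁆, X⁆ ≤ N) (h2 : ⁅⁅Z, X⁆, Y⁆ ≤ N) :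
    ⁅⁅X, Y⁆, Z⁆ ≤ N := by
  rw [← map_mk_eq_bot, map_commutator, map_commutator] at h1 h2 ⊢
  exact commutator_commutator_eq_bot_of_rotate h1 h2

/-- the lower central series -/
def gm (K : Subgroup G) : ℕ → Subgroup G
  | 0 => K
  | n + 1 => ⁅gm K n, K⁆

theorem gm_normal (K : Subgroup G) [hK : K.Normal] (n : ℕ) : (gm K n).Normal := by
  induction n with
  | zero => exact hK
  | succ n ih => exact commutator_normal _ _

theorem gm_succ_le (K : Subgroup G) [hK : K.Normal] (n : ℕ) : gm K (n + 1) ≤ gm K n := by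
  have := gm_normal K n
  exact commutator_le_left _ _

theorem gm_anti (K : Subgroup G) [hK : K.Normal] : Antitone (gm K) :=
  antitone_nat_of_succ_le (gm_succ_le K)

theorem gm_comm (K : Subgroup G) [hK : K.Normal] (j : ℕ) :
    ∀ i, ⁅gm K i, gm K j⁆ ≤ gm K (i + j + 1) := by
  induction j with
  | zero => intro i; exact le_rfl
  | succ j ih =>
    intro i
    have hN := gm_normal K (i + (j + 1) + 1)
    rw [commutator_comm]
    refine three (X := gm K j) (Y := K) (Z := gm K i) ?_ ?_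
    · have h1 : ⁅K, gm K i⁆ = gm K (i + 1) := commutator_comm _ _
      rw [h1]
      have h2 := ih (i + 1)
      rwa [show i + 1 + j + 1 = i + (j + 1) + 1 by ring] at h2
    · have h2 : ⁅⁅gm K i, gm K j⁆, K⁆ ≤ ⁅gm K (i + j + 1), K⁆ := commutator_mono (ih i) le_rfl
      exact h2

theorem ds_le_gm (K : Subgroup G) [hK : K.Normal] (j : ℕ) : ds K j ≤ gm K (2 ^ j - 1) := by
  induction j with
  | zero => exact le_rfl
  | succ j ih =>
    refine (commutator_mono ih ih).trans ((gm_comm K _ _).trans (gm_anti K ?_))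
    have h1 : 2 ^ (j + 1) = 2 * 2 ^ j := by ring
    have h2 : 0 < 2 ^ j := Nat.two_pow_pos j
    omega

theorem gm_card [Finite G] (K : Subgroup G) [hK : K.Normal]
    (h : ∀ M : Subgroup G, M.Normal → M ≤ K → M ≠ ⊥ → ⁅M, K⁆ ≠ M) (n : ℕ) :
    gm K n = ⊥ ∨ 2 ^ n * Nat.card (gm K n) ≤ Nat.card K := by
  induction n with
  | zero => right; simp [gm]
  | succ n ih =>
    by_cases hn : gm K n = ⊥
    · left
      exact le_bot_iff.1 (hn ▸ gm_succ_le K n)
    · right
      have h1 := ih.resolve_left hn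
      have h2 := two_mul_card_le (gm_succ_le K n)
        (h _ (gm_normal K n) (gm_anti K (Nat.zero_le n)) hn)
      calc 2 ^ (n + 1) * Nat.card (gm K (n + 1)) = 2 ^ n * (2 * Nat.card (gm K (n + 1))) := by ring
        _ ≤ 2 ^ n * Nat.card (gm K n) := Nat.mul_le_mul_left _ h2
        _ ≤ _ := h1

/-- a normal subgroup which acts trivially on all chief factors inside it -/
theorem ds_nilp [Finite G] (K : Subgroup G) [hK : K.Normal]
    (h : ∀ M : Subgroup G, M.Normal → M ≤ K → M ≠ ⊥ → ⁅M, K⁆ ≠ M) {n : ℕ}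
    (hn : Nat.log 2 (Nat.card K) < 2 ^ n) : ds K n = ⊥ := by
  have h1 := ds_le_gm K n
  rcases gm_card K h (2 ^ n - 1) with h2 | h2
  · exact le_bot_iff.1 (h2 ▸ h1)
  · have h3 : Nat.card K < 2 ^ 2 ^ n := Nat.lt_pow_of_log_lt (by omega) hn
    have h4 : 2 ^ 2 ^ n = 2 ^ (2 ^ n - 1) * 2 := by
      rw [← pow_succ]
      congr 1
      have : 0 < 2 ^ n := Nat.two_pow_pos n
      omega
    have h5 : Nat.card (gm K (2 ^ n - 1)) < 2 := by
      have h6 : 2 ^ (2 ^ n - 1) * Nat.card (gm K (2 ^ n - 1)) < 2 ^ (2 ^ n - 1) * 2 := by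
        rw [← h4]
        exact lt_of_le_of_lt h2 h3
      exact Nat.lt_of_mul_lt_mul_left h6
    have h6 : 0 < Nat.card (gm K (2 ^ n - 1)) := Nat.card_pos
    have h7 : gm K (2 ^ n - 1) = ⊥ := Subgroup.eq_bot_of_card_eq _ (by omega)
    exact le_bot_iff.1 (h7 ▸ h1)

end Pool.Agent.J4H54.DL
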