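import Pool.Agent.J4H54.DL.Cliff

set_option autoImplicit false
set_option linter.unusedSectionVars false

/-!
# Chief factors
-/

namespace Pool.Agent.J4H54.DL

open Subgroup

section

variable {Γ : Type} [Group Γ]

/-- `B / L` is an abelian chief factor -/
structure ChiefF (L B : Subgroup Γ) : Prop where
  nl : L.Normal
  nb : B.Normal
  lt : L < B
  ab : ⁅B, B⁆ ≤ L
  min : ∀ N : Subgroup Γ, N.Normal → L ≤ N → N ≤ B → N = L ∨ N = B

theorem chief_ab (hS : Slv (⊤ : Subgroup Γ)) {L B : Subgroup Γ} (nl : L.Normal) (nb : B.Normal)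
    (lt : L < B) (min : ∀ N : Subgroup Γ, N.Normal → L ≤ N → N ≤ B → N = L ∨ N = B) :
    ⁅B, B⁆ ≤ L := by
  have h1 : (⁅B, B⁆ ⊔ L).Normal := Subgroup.sup_normal _ _
  rcases min _ h1 le_sup_right (sup_le (commutator_le_self B) lt.le) with h2 | h2
  · rw [← h2]
    exact le_sup_left
  · exfalso
    set f := QuotientGroup.mk' L with hf
    have h3 : B.map f = ⁅B.map f, B.map f⁆ := by
      conv_lhs => rw [← h2]
      rw [Subgroup.map_sup, map_commutator, (map_mk_eq_bot (N := L)).2 le_rfl, sup_bot_eq]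
    have h4 : Slv (B.map f) := (hS.mono le_top).map f
    by_cases h5 : B.map f = ⊥
    · rw [map_mk_eq_bot] at h5
      exact absurd h5 lt.not_ge
    · exact h4.comm_ne h5 h3.symm

theorem exists_chief_above [Finite Γ] (hS : Slv (⊤ : Subgroup Γ)) {L C : Subgroup Γ}
    (nl : L.Normal) (nc : C.Normal) (lt : L < C) : ∃ B, B ≤ C ∧ ChiefF L B := by
  obtain ⟨B, ⟨h1, h2, h3⟩, h4⟩ := Set.exists_min_image {B : Subgroup Γ | B.Normal ∧ L < B ∧ B ≤ C}
    (fun B => Nat.card B) (Set.toFinite _) ⟨C, nc, lt, le_rfl⟩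
  have min : ∀ N : Subgroup Γ, N.Normal → L ≤ N → N ≤ B → N = L ∨ N = B := by
    intro N hN hLN hNB
    by_cases h5 : N = L
    · exact Or.inl h5
    · right
      have h6 := h4 N ⟨hN, lt_of_le_of_ne hLN (Ne.symm h5), hNB.trans h3⟩
      exact Subgroup.eq_of_le_of_card_ge hNB h6
  exact ⟨B, h3, nl, h1, h2, chief_ab hS nl h1 h2 min, min⟩

theorem exists_chief_below [Finite Γ] (hS : Slv (⊤ : Subgroup Γ)) {M : Subgroup Γ}
    (nm : M.Normal) (hM : M ≠ ⊥) : ∃ N, ChiefF N M := by
  obtain ⟨N, ⟨h1, h2⟩, h4⟩ := Set.exists_max_image {N : Subgroup Γ | N.Normal ∧ N < M}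
    (fun B => Nat.card B) (Set.toFinite _) ⟨⊥, inferInstance, bot_lt_iff_ne_bot.2 hM⟩
  have min : ∀ N' : Subgroup Γ, N'.Normal → N ≤ N' → N' ≤ M → N' = N ∨ N' = M := by
    intro N' hN hLN hNB
    by_cases h5 : N' = M
    · exact Or.inr h5
    · left
      have h6 := h4 N' ⟨hN, lt_of_le_of_ne hNB h5⟩
      exact (Subgroup.eq_of_le_of_card_ge hLN h6).symm
  exact ⟨N, h1, nm, h2, chief_ab hS h1 nm h2 min, min⟩

end

/-- irreducible actions of solvable groups on abelian groups of order less than `2 ^ (m + 1)`: the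
derived subgroup of order `b` acts trivially -/
def Bd (m b : ℕ) : Prop :=
  ∀ (Γ V : Type) [Group Γ] [Finite Γ] [AddCommGroup V] [Finite V] [DistribMulAction Γ V],
    Slv (⊤ : Subgroup Γ) → Irr V (⊤ : Subgroup Γ) → Nat.log 2 (Nat.card V) ≤ m →
    ∀ g ∈ ds (⊤ : Subgroup Γ) b, ∀ v : V, g • v = v

/-- it is enough to consider faithful actions -/
theorem bd_of_faithful {m b : ℕ}
    (h : ∀ (Γ V : Type) [Group Γ] [Finite Γ] [AddCommGroup V] [Finite V] [DistribMulAction Γ V],
      Slv (⊤ : Subgroup Γ) → Irr V (⊤ : Subgroup Γ) → Nat.log 2 (Nat.card V) ≤ m →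
      (∀ g : Γ, (∀ v : V, g • v = v) → g = 1) → ds (⊤ : Subgroup Γ) b = ⊥) : Bd m b := by
  intro Γ V _ _ _ _ _ hS hI hV g hg v
  set f : Γ →* (AddMonoid.End V)ˣ := (DistribMulAction.toAddMonoidEnd Γ V).toHomUnits with hf
  set f' : Γ →* f.range := f.rangeRestrict with hf'
  have hf's : Function.Surjective f' := f.rangeRestrict_surjective
  have hact : ∀ (g : Γ) (v : V), (f' g) • v = g • v := fun g v => rfl
  have : Finite f.range := Finite.of_surjective f' hf's
  have htop : (⊤ : Subgroup Γ).map f' = ⊤ := by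
    rw [← MonoidHom.range_eq_map]
    exact MonoidHom.range_eq_top.2 hf's
  have h1 := h f.range V (by rw [← htop]; exact hS.map f') (by
    refine ⟨hI.nt, fun U hU => hI.irr U fun g _ u hu => ?_⟩
    rw [← hact]
    exact hU (f' g) trivial u hu) hV (by
    rintro ⟨u, hu⟩ h2
    apply Subtype.ext
    apply Units.ext
    ext v
    exact h2 v)
  have h2 : f' g ∈ ds (⊤ : Subgroup f.range) b := by
    rw [← htop, ← ds_map]
    exact ⟨g, hg, rfl⟩
  rw [h1, Subgroup.mem_bot] at h2
  rw [← hact, h2, one_smul]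

section

variable {Γ : Type} [Group Γ] [Finite Γ]

/-- the action on a chief factor -/
theorem chief_action {m b : ℕ} (hB : Bd m b) (hS : Slv (⊤ : Subgroup Γ)) {L B : Subgroup Γ}
    (hc : ChiefF L B) (hm : Nat.log 2 (L.relIndex B) ≤ m) :
    ∀ g ∈ ds (⊤ : Subgroup Γ) b, ∀ x ∈ B, g * x * g⁻¹ * x⁻¹ ∈ L := by
  have := hc.nl
  have := hc.nb
  set f := QuotientGroup.mk' L with hf
  have hfs : Function.Surjective f := QuotientGroup.mk'_surjective L
  set W : Subgroup (Γ ⧸ L) := B.map f with hW
  have hWn : W.Normal := Subgroup.Normal.map hc.nb f hfs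
  have hWc : ∀ x ∈ W, ∀ y ∈ W, x * y = y * x := by
    have h1 : ⁅W, W⁆ = ⊥ := by
      rw [hW, ← map_commutator, map_mk_eq_bot]
      exact hc.ab
    intro x hx y hy
    have h2 := commutator_eq_bot_iff_le_centralizer.1 h1 hx
    exact ((Subgroup.mem_centralizer_iff.1 h2) y hy).symm
  let _ : CommGroup W := { (inferInstance : Group W) with
    mul_comm := fun x y => Subtype.ext (hWc x x.2 y y.2) }
  let _ : DistribMulAction (Γ ⧸ L) (Additive W) :=
    { smul := fun q w => Additive.ofMul (⟨q * (Additive.toMul w : W) * q⁻¹,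
        hWn.conj_mem _ (Additive.toMul w : W).2 q⟩ : W)
      one_smul := by
        intro w
        apply Additive.toMul.injective
        apply Subtype.ext
        show 1 * ((Additive.toMul w : W) : Γ ⧸ L) * 1⁻¹ = _
        simp
      mul_smul := by
        intro q r w
        apply Additive.toMul.injective
        apply Subtype.ext
        show q * r * ((Additive.toMul w : W) : Γ ⧸ L) * (q * r)⁻¹ =
          q * (r * ((Additive.toMul w : W) : Γ ⧸ L) * r⁻¹) * q⁻¹
        group
      smul_zero := by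
        intro q
        apply Additive.toMul.injective
        apply Subtype.ext
        show q * 1 * q⁻¹ = 1
        group
      smul_add := by
        intro q v w
        apply Additive.toMul.injective
        apply Subtype.ext
        show q * (((Additive.toMul v : W) : Γ ⧸ L) * ((Additive.toMul w : W) : Γ ⧸ L)) * q⁻¹ =
          (q * ((Additive.toMul v : W) : Γ ⧸ L) * q⁻¹) *
            (q * ((Additive.toMul w : W) : Γ ⧸ L) * q⁻¹)
        group }
  have hsm : ∀ (q : Γ ⧸ L) (w : Additive W),
      ((Additive.toMul (q • w) : W) : Γ ⧸ L) = q * ((Additive.toMul w : W) : Γ ⧸ L) * q⁻¹ :=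
    fun q w => rfl
  have htop : (⊤ : Subgroup Γ).map f = ⊤ := by
    rw [← MonoidHom.range_eq_map]
    exact MonoidHom.range_eq_top.2 hfs
  have hcard : Nat.card (Additive W) = L.relIndex B := by
    have h1 : Nat.card (Additive W) = Nat.card W := rfl
    rw [h1, hW, hf]
    have h2 := Subgroup.relIndex_ker (K := B) (QuotientGroup.mk' L)
    rw [QuotientGroup.ker_mk'] at h2
    rw [h2]
  have hne : W ≠ ⊥ := by
    rw [hW, Ne, map_mk_eq_bot]
    exact hc.lt.not_ge
  have key := hB (Γ ⧸ L) (Additive W) (by rw [← htop]; exact hS.map f) (by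
    constructor
    · obtain ⟨⟨x, hx⟩, hx1⟩ : ∃ x : W, x ≠ 1 := by
        by_contra hcon
        push Not at hcon
        apply hne
        rw [eq_bot_iff]
        intro x hx
        exact congrArg Subtype.val (hcon ⟨x, hx⟩)
      exact ⟨⟨Additive.ofMul ⟨x, hx⟩, 0, fun h => hx1 (Additive.ofMul.injective h)⟩⟩
    · intro U hU
      -- the corresponding normal subgroup
      set N : Subgroup (Γ ⧸ L) :=
        { carrier := {q | ∃ hq : q ∈ W, Additive.ofMul (⟨q, hq⟩ : W) ∈ U}
          one_mem' := ⟨W.one_mem, U.zero_mem⟩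
          mul_mem' := by
            rintro x y ⟨hx, hx'⟩ ⟨hy, hy'⟩
            exact ⟨W.mul_mem hx hy, U.add_mem hx' hy'⟩
          inv_mem' := by
            rintro x ⟨hx, hx'⟩
            exact ⟨W.inv_mem hx, U.neg_mem hx'⟩ } with hN
      have hNn : N.Normal := by
        constructor
        rintro x ⟨hx, hx'⟩ q
        exact ⟨hWn.conj_mem _ hx q, hU q trivial _ hx'⟩
      have hNW : N ≤ W := by
        rintro x ⟨hx, -⟩
        exact hx
      have h1 := hc.min (N.comap f) (hNn.comap f) (by
        intro x hx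
        have h2 : f x = 1 := (QuotientGroup.eq_one_iff x).2 hx
        show f x ∈ N
        rw [h2]
        exact N.one_mem) (by
        intro x hx
        have h2 : f x ∈ W := hNW hx
        obtain ⟨y, hy, hyx⟩ := h2
        have h3 : y⁻¹ * x ∈ L := QuotientGroup.eq.1 hyx
        have h4 : x = y * (y⁻¹ * x) := by group
        rw [h4]
        exact B.mul_mem hy (hc.lt.le h3))
      rcases h1 with h1 | h1
      · left
        rw [eq_bot_iff]
        intro w hw
        have h2 : ((Additive.toMul w : W) : Γ ⧸ L) ∈ N := ⟨(Additive.toMul w : W).2, hw⟩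
        obtain ⟨y, hy⟩ := hfs ((Additive.toMul w : W) : Γ ⧸ L)
        have h3 : y ∈ N.comap f := by
          show f y ∈ N
          rw [hy]
          exact h2
        rw [h1] at h3
        have h4 : f y = 1 := (QuotientGroup.eq_one_iff y).2 h3
        rw [hy] at h4
        have h5 : (Additive.toMul w : W) = 1 := Subtype.ext h4
        exact h5
      · right
        rw [eq_top_iff]
        intro w _
        obtain ⟨y, hy, hyw⟩ := (Additive.toMul w : W).2
        have h3 : y ∈ N.comap f := by rw [h1]; exact hy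
        obtain ⟨h4, h5⟩ := h3
        have h6 : (Additive.ofMul (⟨f y, h4⟩ : W)) = w := by
          apply Additive.toMul.injective
          exact Subtype.ext hyw
        rw [← h6]
        exact h5) (by rw [hcard]; exact hm)
  intro g hg x hx
  have h1 : f g ∈ ds (⊤ : Subgroup (Γ ⧸ L)) b := by
    rw [← htop, ← ds_map]
    exact ⟨g, hg, rfl⟩
  have h2 := key (f g) h1 (Additive.ofMul (⟨f x, x, hx, rfl⟩ : W))
  have h3 : f g * f x * (f g)⁻¹ = f x := congrArg (fun w => ((Additive.toMul w : W) : Γ ⧸ L)) h2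
  rw [← QuotientGroup.eq_one_iff]
  show f (g * x * g⁻¹ * x⁻¹) = 1
  rw [map_mul, map_mul, map_mul, map_inv, map_inv, h3, mul_inv_cancel]

variable {V : Type} [AddCommGroup V] [Finite V] [DistribMulAction Γ V]

/-- the action on a simple submodule -/
theorem simple_action {m b : ℕ} (hB : Bd m b) {L : Subgroup Γ} (hS : Slv L)
    (U : Submodule (RR V L) V) (hU : IsSimpleModule (RR V L) U)
    (hm : Nat.log 2 (Nat.card U) ≤ m) : ∀ g ∈ ds L b, ∀ u ∈ U, g • u = u := by
  let _ : DistribMulAction L U :=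
    { smul := fun l u => ⟨(l : Γ) • (u : V), inv_of_sub U l.2 u.2⟩
      one_smul := fun u => Subtype.ext (one_smul Γ (u : V))
      mul_smul := fun l k u => Subtype.ext (mul_smul (l : Γ) (k : Γ) (u : V))
      smul_zero := fun l => Subtype.ext (smul_zero (l : Γ))
      smul_add := fun l u v => Subtype.ext (smul_add (l : Γ) (u : V) (v : V)) }
  have hsm : ∀ (l : L) (u : U), ((l • u : U) : V) = (l : Γ) • (u : V) := fun l u => rfl
  have htop : (⊤ : Subgroup L).map L.subtype = L := by
    rw [← MonoidHom.range_eq_map, Subgroup.range_subtype]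
  have hS' : Slv (⊤ : Subgroup L) := by
    obtain ⟨n, hn⟩ := hS
    refine ⟨n, ?_⟩
    rw [← htop, ← ds_map] at hn
    exact (Subgroup.map_eq_bot_iff_of_injective _ L.subtype_injective).1 hn
  have hat : IsAtom U := isSimpleModule_iff_isAtom.1 hU
  have key := hB L U hS' (by
    refine ⟨IsSimpleModule.nontrivial (RR V L) U, ?_⟩
    intro W hW
    set W' : Submodule (RR V L) V := sub (W.map U.toAddSubgroup.subtype) (by
      rintro l hl _ ⟨w, hw, rfl⟩
      exact ⟨(⟨l, hl⟩ : L) • w, hW _ trivial w hw, rfl⟩) with hW'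
    have h1 : W' ≤ U := by
      rintro _ ⟨w, hw, rfl⟩
      exact w.2
    have hmem : ∀ w : U, (w : V) ∈ W' ↔ w ∈ W := by
      intro w
      constructor
      · rintro ⟨w', hw', h⟩
        have : w' = w := Subtype.ext h
        rwa [← this]
      · intro hw
        exact ⟨w, hw, rfl⟩
    by_cases h2 : W' = ⊥
    · left
      rw [eq_bot_iff]
      intro w hw
      have h3 := (hmem w).2 hw
      rw [h2, Submodule.mem_bot] at h3
      exact Subtype.ext h3
    · right
      have h3 : W' = U := (hat.le_iff.1 h1).resolve_left h2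
      rw [eq_top_iff]
      intro w _
      rw [← hmem, h3]
      exact w.2) hm
  intro g hg u hu
  rw [← htop, ← ds_map] at hg
  obtain ⟨l, hl, rfl⟩ := hg
  exact congrArg Subtype.val (key l hl ⟨u, hu⟩)

theorem triv_of_simples {L : Subgroup Γ} (hL : IsSemisimpleModule (RR V L) V) {g : Γ}
    (h : ∀ U : Submodule (RR V L) V, IsSimpleModule (RR V L) U → ∀ u ∈ U, g • u = u) (v : V) :
    g • v = v := by
  have h1 : v ∈ ⨆ U : {m : Submodule (RR V L) V | IsSimpleModule (RR V L) m},
      (U : Submodule (RR V L) V) := by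
    rw [← sSup_eq_iSup', IsSemisimpleModule.sSup_simples_eq_top]
    trivial
  induction h1 using Submodule.iSup_induction' with
  | mem i x hx => exact h i i.2 x hx
  | zero => exact smul_zero g
  | add x y _ _ hx hy => rw [smul_add, hx, hy]

end

end Pool.Agent.J4H54.DL
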