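import Pool.Agent.J4H54.DL.Basic

set_option autoImplicit false
set_option linter.unusedSectionVars false

/-!
# Groups acting on an abelian group, and their modules
-/

namespace Pool.Agent.J4H54.DL

open Subgroup

variable {Γ : Type} [Group Γ] {V : Type} [AddCommGroup V] [DistribMulAction Γ V]

/-- the ring generated by a group of automorphisms -/
def RR (V : Type) [AddCommGroup V] [DistribMulAction Γ V] (L : Subgroup Γ) :
    Subring (AddMonoid.End V) :=
  Subring.closure {e | ∃ l ∈ L, e = DistribMulAction.toAddMonoidEnd Γ V l}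

variable {L M H : Subgroup Γ}

theorem mem_RR {l : Γ} (hl : l ∈ L) : DistribMulAction.toAddMonoidEnd Γ V l ∈ RR V L :=
  Subring.subset_closure ⟨l, hl, rfl⟩

theorem RR_mono (h : L ≤ M) : RR V L ≤ RR V M :=
  Subring.closure_mono (by rintro e ⟨l, hl, rfl⟩; exact ⟨l, h hl, rfl⟩)

theorem smul_eq (r : RR V L) (v : V) : r • v = (r : AddMonoid.End V) v := rfl

/-- the group element as an element of the ring -/
def el (V : Type) [AddCommGroup V] [DistribMulAction Γ V] (l : Γ) (hl : l ∈ L) : RR V L :=
  ⟨DistribMulAction.toAddMonoidEnd Γ V l, mem_RR hl⟩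

theorem el_smul (l : Γ) (hl : l ∈ L) (v : V) : el V l hl • v = l • v := rfl

/-- invariant subgroups are submodules -/
def sub (U : AddSubgroup V) (hU : ∀ l ∈ L, ∀ u ∈ U, l • u ∈ U) : Submodule (RR V L) V where
  carrier := U
  add_mem' := fun ha hb => U.add_mem ha hb
  zero_mem' := U.zero_mem
  smul_mem' := by
    rintro ⟨r, hr⟩ x hx
    have key : ∀ r ∈ RR V L, ∀ x ∈ U, (r : AddMonoid.End V) x ∈ U := by
      intro r hr
      induction hr using Subring.closure_induction with
      | mem r hr =>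
        obtain ⟨l, hl, rfl⟩ := hr
        intro x hx
        exact hU l hl x hx
      | zero => intro x hx; exact U.zero_mem
      | one => intro x hx; exact hx
      | add a b _ _ ha hb => intro x hx; exact U.add_mem (ha x hx) (hb x hx)
      | neg a _ ha => intro x hx; exact U.neg_mem (ha x hx)
      | mul a b _ _ ha hb => intro x hx; exact ha _ (hb x hx)
    exact key r hr x hx

theorem mem_sub {U : AddSubgroup V} {hU : ∀ l ∈ L, ∀ u ∈ U, l • u ∈ U} {x : V} :
    x ∈ (sub U hU : Submodule (RR V L) V) ↔ x ∈ U := Iff.rfl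

theorem inv_of_sub (U : Submodule (RR V L) V) {l : Γ} (hl : l ∈ L) {u : V} (hu : u ∈ U) :
    l • u ∈ U := U.smul_mem (el V l hl) hu

/-- maps commuting with the group are linear -/
def lin (f : V →+ V)
    (hf : ∀ l ∈ L, ∀ v, f (l • v) = l • (f v)) : Module.End (RR V L) V where
  toFun := f
  map_add' := f.map_add
  map_smul' := by
    rintro ⟨r, hr⟩ x
    have key : ∀ r ∈ RR V L, ∀ x, f ((r : AddMonoid.End V) x) = (r : AddMonoid.End V) (f x) := by
      intro r hr
      induction hr using Subring.closure_induction with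
      | mem r hr =>
        obtain ⟨l, hl, rfl⟩ := hr
        intro x
        exact hf l hl x
      | zero => intro x; exact f.map_zero
      | one => intro x; rfl
      | add a b _ _ ha hb =>
        intro x
        have : f (a x + b x) = a (f x) + b (f x) := by rw [map_add, ha, hb]
        exact this
      | neg a _ ha =>
        intro x
        have : f (-(a x)) = -(a (f x)) := by rw [map_neg, ha]
        exact this
      | mul a b _ _ ha hb =>
        intro x
        have : f (a (b x)) = a (b (f x)) := by rw [ha, hb]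
        exact this
    exact key r hr x

theorem end_comm (f : Module.End (RR V L) V) {l : Γ} (hl : l ∈ L) (v : V) :
    f (l • v) = l • f v := f.map_smul (el V l hl) v

/-- `h` normalizes `L` -/
def Nz (L : Subgroup Γ) (h : Γ) : Prop := ∀ l, h * l * h⁻¹ ∈ L ↔ l ∈ L

theorem Nz.inv {h : Γ} (hh : Nz L h) : Nz L h⁻¹ := by
  intro l
  rw [← hh (h⁻¹ * l * h⁻¹⁻¹)]
  have : h * (h⁻¹ * l * h⁻¹⁻¹) * h⁻¹ = l := by group
  rw [this]

theorem Nz.conj {h : Γ} (hh : Nz L h) {l : Γ} (hl : l ∈ L) : h * l * h⁻¹ ∈ L :=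
  (hh l).2 hl

theorem Nz.conj' {h : Γ} (hh : Nz L h) {l : Γ} (hl : l ∈ L) : h⁻¹ * l * h ∈ L := by
  have := hh.inv.conj hl
  rwa [inv_inv] at this

/-- the image of a submodule under an element normalizing `L` -/
def tw (h : Γ) (hh : Nz L h) (U : Submodule (RR V L) V) : Submodule (RR V L) V :=
  sub (U.toAddSubgroup.map (DistribSMul.toAddMonoidHom V h)) (by
    rintro l hl _ ⟨u, hu, rfl⟩
    refine ⟨(h⁻¹ * l * h) • u, inv_of_sub U (hh.conj' hl) hu, ?_⟩
    show h • ((h⁻¹ * l * h) • u) = l • (h • u)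
    rw [smul_smul, smul_smul]
    congr 1
    group)

theorem mem_tw {h : Γ} {hh : Nz L h} {U : Submodule (RR V L) V} {x : V} :
    x ∈ tw h hh U ↔ h⁻¹ • x ∈ U := by
  constructor
  · rintro ⟨u, hu, rfl⟩
    show h⁻¹ • (h • u) ∈ U
    rw [inv_smul_smul]
    exact hu
  · intro hx
    exact ⟨h⁻¹ • x, hx, smul_inv_smul h x⟩

theorem apply_mem_tw {h : Γ} {hh : Nz L h} {U : Submodule (RR V L) V} {u : V} :
    h • u ∈ tw h hh U ↔ u ∈ U := by
  rw [mem_tw, inv_smul_smul]

/-- it is an automorphism of the lattice of submodules -/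
def twIso (h : Γ) (hh : Nz L h) : Submodule (RR V L) V ≃o Submodule (RR V L) V where
  toFun := tw h hh
  invFun := tw h⁻¹ hh.inv
  left_inv := by
    intro U
    ext x
    rw [mem_tw, mem_tw, inv_inv, inv_smul_smul]
  right_inv := by
    intro U
    ext x
    rw [mem_tw, mem_tw, inv_inv, smul_inv_smul]
  map_rel_iff' := by
    intro U W
    constructor
    · intro hUW x hx
      have h1 : h • x ∈ tw h hh U := apply_mem_tw.2 hx
      have h2 : h • x ∈ tw h hh W := hUW h1
      exact apply_mem_tw.1 h2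
    · intro hUW x hx
      have h1 : x ∈ tw h hh U := hx
      rw [mem_tw] at h1
      have h2 : h⁻¹ • x ∈ W := hUW h1
      exact (mem_tw (hh := hh)).2 h2

theorem twIso_apply (h : Γ) (hh : Nz L h) (U : Submodule (RR V L) V) :
    twIso h hh U = tw h hh U := rfl

/-- irreducible actions -/
structure Irr (V : Type) [AddCommGroup V] [DistribMulAction Γ V] (H : Subgroup Γ) : Prop where
  nt : Nontrivial V
  irr : ∀ U : AddSubgroup V, (∀ h ∈ H, ∀ u ∈ U, h • u ∈ U) → U = ⊥ ∨ U = ⊤

/-- `L` is normalized by `H` -/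
def Nm (H L : Subgroup Γ) : Prop := ∀ h ∈ H, Nz L h

theorem nm_of {H L : Subgroup Γ} (h : ∀ h ∈ H, ∀ l ∈ L, h * l * h⁻¹ ∈ L) : Nm H L := by
  intro g hg l
  constructor
  · intro h1
    have h2 := h g⁻¹ (H.inv_mem hg) _ h1
    have : g⁻¹ * (g * l * g⁻¹) * g⁻¹⁻¹ = l := by group
    rwa [this] at h2
  · intro h1
    exact h g hg l h1

/-- a submodule invariant under `H` -/
theorem Irr.sub_eq (hH : Irr V H) (U : Submodule (RR V L) V)
    (hU : ∀ h ∈ H, ∀ u ∈ U, h • u ∈ U) : U = ⊥ ∨ U = ⊤ := by
  rcases hH.irr U.toAddSubgroup hU with h | h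
  · left
    ext x
    have : x ∈ U.toAddSubgroup ↔ x ∈ (⊥ : AddSubgroup V) := by rw [h]
    simpa using this
  · right
    ext x
    have : x ∈ U.toAddSubgroup ↔ x ∈ (⊤ : AddSubgroup V) := by rw [h]
    simpa using this

/-- **Clifford.** -/
theorem semisimple [Finite V] (hH : Irr V H) (hL : Nm H L) : IsSemisimpleModule (RR V L) V := by
  have := hH.nt
  apply IsSemisimpleModule.of_sSup_simples_eq_top
  set S := sSup {m : Submodule (RR V L) V | IsSimpleModule (RR V L) m} with hS
  have h1 : S = ⊥ ∨ S = ⊤ := by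
    apply hH.sub_eq
    intro h hh u hu
    have h2 : tw h (hL h hh) S = S := by
      rw [← twIso_apply, hS, OrderIso.map_sSup, ← sSup_image]
      congr 1
      ext m
      constructor
      · rintro ⟨m', hm', rfl⟩
        have h3 : IsSimpleModule (RR V L) m' := hm'
        show IsSimpleModule (RR V L) _
        rw [isSimpleModule_iff_isAtom] at h3 ⊢
        exact (OrderIso.isAtom_iff _ _).2 h3
      · intro hm
        have h3 : IsSimpleModule (RR V L) m := hm
        refine ⟨(twIso h (hL h hh)).symm m, ?_, OrderIso.apply_symm_apply _ _⟩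
        show IsSimpleModule (RR V L) _
        rw [isSimpleModule_iff_isAtom] at h3 ⊢
        exact (OrderIso.isAtom_iff _ _).2 h3
    rw [← h2]
    exact apply_mem_tw.2 hu
  refine h1.resolve_left ?_
  intro h2
  obtain ⟨m, hm⟩ := IsAtomic.exists_atom (Submodule (RR V L) V)
  have h3 : IsSimpleModule (RR V L) m := isSimpleModule_iff_isAtom.2 hm
  have h4 : m ≤ S := le_sSup h3
  rw [h2, le_bot_iff] at h4
  exact hm.1 h4

end Pool.Agent.J4H54.DL
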