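import Pool.Agent.J4H54.DL.NonIso

set_option autoImplicit false
set_option linter.unusedSectionVars false

/-!
# The quasi-primitive case
-/

namespace Pool.Agent.J4H54.DL

open Subgroup
open scoped commutatorElement

/-- the endomorphism ring of an isotypic module of finite cardinality -/
theorem frame_ring {R : Type} [Ring R] {V : Type} [AddCommGroup V] [Module R V] [Finite V]
    [Nontrivial V] [IsSemisimpleModule R V] (h : IsIsotypic R V) :
    ∃ (n : ℕ) (E : Type) (_ : Field E) (_ : Finite E), 1 ≤ n ∧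
      Nonempty (Module.End R V ≃+* Matrix (Fin n) (Fin n) E) ∧
      ∀ U : Submodule R V, IsSimpleModule R U → Nat.card U ^ n = Nat.card V := by
  classical
  obtain ⟨n, hn, S, hS, ⟨e⟩⟩ := h.linearEquiv_fun
  have hfin : Finite (Module.End R S) := Finite.of_injective
    (fun f : Module.End R S => (f : S → S)) DFunLike.coe_injective
  refine ⟨n, Module.End R S, inferInstance, hfin, Nat.one_le_iff_ne_zero.2 hn.out,
    ⟨e.conjRingEquiv.trans (endVecRingEquivMatrixEnd (Fin n) R S)⟩, ?_⟩
  intro U hU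
  have h1 : Nat.card S = Nat.card U := Nat.card_congr (h S U).some.symm.toEquiv
  rw [Nat.card_congr e.toEquiv, Nat.card_fun, Nat.card_eq_fintype_card (α := Fin n),
    Fintype.card_fin, h1]

/-- linear independence of coset representatives -/
theorem indep_card {F : Type} [Field F] {M : Type} [Ring M] [Algebra F M] [Nontrivial M]
    [Module.Finite F M] {X : Type} [Group X] [Finite X] (β : X →* M) (A : Subgroup X)
    (hA : ∀ x y : X, ∃ e : F, β (x * y * x⁻¹ * y⁻¹) = algebraMap F M e)
    (hZ : ∀ y y' : X, (∀ x, β (x * y * x⁻¹ * y⁻¹) = β (x * y' * x⁻¹ * y'⁻¹)) → y⁻¹ * y' ∈ A) :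
    Nat.card (X ⧸ A) ≤ Module.finrank F M := by
  classical
  choose c hc using hA
  have hinj : Function.Injective (algebraMap F M) := (algebraMap F M).injective
  let χ : X → (X →* F) := fun y =>
    { toFun := fun x => c x y
      map_one' := by
        apply hinj
        rw [← hc, map_one]
        have : (1 : X) * y * 1⁻¹ * y⁻¹ = 1 := by group
        rw [this, map_one]
      map_mul' := by
        intro x x'
        apply hinj
        rw [map_mul, ← hc]
        have h1 : x * x' * y * (x * x')⁻¹ * y⁻¹ = x * (x' * y * x'⁻¹ * y⁻¹) * (y * x⁻¹ * y⁻¹) := by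
          group
        have h2 : x * y * x⁻¹ * y⁻¹ = x * (y * x⁻¹ * y⁻¹) := by group
        rw [h1, map_mul, map_mul, hc x' y, ← Algebra.commutes, mul_assoc, ← map_mul, ← h2, hc x y,
          ← map_mul, ← map_mul, mul_comm] }
  have hχ : ∀ x y, algebraMap F M (χ y x) = β (x * y * x⁻¹ * y⁻¹) := fun x y => (hc x y).symm
  have hfin : Finite (X ⧸ A) := inferInstance
  have : Fintype (X ⧸ A) := Fintype.ofFinite _
  set v : X ⧸ A → M := fun q => β q.out with hv
  have hχinj : Function.Injective (fun q : X ⧸ A => χ q.out) := by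
    intro p q hpq
    have h1 : ∀ x, β (x * p.out * x⁻¹ * p.out⁻¹) = β (x * q.out * x⁻¹ * q.out⁻¹) := by
      intro x
      rw [← hχ, ← hχ]
      have : χ p.out = χ q.out := hpq
      rw [this]
    have h2 := hZ _ _ h1
    rw [← QuotientGroup.out_eq' p, ← QuotientGroup.out_eq' q]
    exact QuotientGroup.eq.2 h2
  have hli : LinearIndependent F v := by
    rw [Fintype.linearIndependent_iff]
    intro g hg q
    have hconj : ∀ x y, β x * β y * β x⁻¹ = (χ y x) • β y := by
      intro x y
      rw [Algebra.smul_def, hχ, ← map_mul, ← map_mul, ← map_mul]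
      congr 1
      group
    have h1 : ∀ (φ : M →ₗ[F] F) (p : X ⧸ A), g p * φ (v p) = 0 := by
      intro φ
      have hmon := (linearIndependent_monoidHom X F).comp (fun q : X ⧸ A => χ q.out) hχinj
      rw [Fintype.linearIndependent_iff] at hmon
      apply hmon
      funext x
      simp only [Finset.sum_apply, Pi.smul_apply, Function.comp_apply, smul_eq_mul,
        Pi.zero_apply]
      have h2 : ∑ p, (χ p.out x) • (g p • v p) = 0 := by
        have h3 : β x * (∑ p, g p • v p) * β x⁻¹ = 0 := by rw [hg, mul_zero, zero_mul]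
        rw [← h3, Finset.mul_sum, Finset.sum_mul]
        refine Finset.sum_congr rfl fun p _ => ?_
        rw [mul_smul_comm, smul_mul_assoc, hconj, smul_comm]
      have h3 := congrArg φ h2
      rw [map_sum, map_zero] at h3
      rw [← h3]
      refine Finset.sum_congr rfl fun p _ => ?_
      rw [map_smul, map_smul, smul_eq_mul, smul_eq_mul]
      ring
    have hvne : v q ≠ 0 := by
      intro h2
      have h3 : β q.out * β q.out⁻¹ = 1 := by rw [← map_mul, mul_inv_cancel, map_one]
      rw [show β q.out = 0 from h2, zero_mul] at h3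
      exact zero_ne_one h3
    obtain ⟨φ, hφ⟩ := Module.Projective.exists_dual_ne_zero F hvne
    exact (mul_eq_zero.1 (h1 φ q)).resolve_right hφ
  rw [Nat.card_eq_fintype_card]
  exact hli.fintype_card_le_finrank

variable {Γ : Type} [Group Γ] {V : Type} [AddCommGroup V] [DistribMulAction Γ V]
  [Finite Γ] [Finite V] {L A B : Subgroup Γ}

theorem frame (hI : Irr V (⊤ : Subgroup Γ)) (hF : ∀ g : Γ, (∀ v : V, g • v = v) → g = 1)
    (hL : L.Normal) (hiso : IsIsotypic (RR V L) V) :
    ∃ (n : ℕ) (E : Type) (_ : Field E) (_ : Finite E)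
      (β : centralizer (L : Set Γ) →* Matrix (Fin n) (Fin n) E), 1 ≤ n ∧
      Function.Injective β ∧ (∀ x : centralizer (L : Set Γ), (x : Γ) ∈ L → ∃ e : E, β x = Matrix.scalar (Fin n) e) ∧
      ∀ U : Submodule (RR V L) V, IsSimpleModule (RR V L) U → Nat.card U ^ n = Nat.card V := by
  have hnt := hI.nt
  have hss : IsSemisimpleModule (RR V L) V := semisimple hI (nm_of_normal hL _)
  obtain ⟨n, E, hE, hEf, hn, ⟨ψ⟩, hU⟩ := frame_ring hiso
  have hcomm : ∀ x ∈ centralizer (L : Set Γ), ∀ l ∈ L, ∀ v : V,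
      (DistribSMul.toAddMonoidHom V x) (l • v) = l • (DistribSMul.toAddMonoidHom V x) v := by
    intro x hx l hl v
    show x • l • v = l • x • v
    rw [smul_smul, smul_smul, mem_centralizer_iff.1 hx l hl]
  let cen : centralizer (L : Set Γ) →* Module.End (RR V L) V :=
    { toFun := fun x => lin (DistribSMul.toAddMonoidHom V (x : Γ)) (hcomm x x.2)
      map_one' := by
        apply LinearMap.ext
        intro v
        exact one_smul Γ v
      map_mul' := by
        intro x y
        apply LinearMap.ext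
        intro v
        exact mul_smul (x : Γ) (y : Γ) v }
  have hcen : ∀ (x : centralizer (L : Set Γ)) (v : V), cen x v = (x : Γ) • v := fun x v => rfl
  refine ⟨n, E, hE, hEf, (ψ : Module.End (RR V L) V →* Matrix (Fin n) (Fin n) E).comp cen, hn,
    ?_, ?_, hU⟩
  · intro x y hxy
    have h1 : cen x = cen y := ψ.injective hxy
    have h2 : ∀ v : V, (x : Γ) • v = (y : Γ) • v := by
      intro v
      rw [← hcen, ← hcen, h1]
    have h3 : (x : Γ)⁻¹ * y = 1 := by
      apply hF
      intro v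
      rw [mul_smul, ← h2, inv_smul_smul]
    exact Subtype.ext (inv_mul_eq_one.1 h3)
  · intro x hx
    have h1 : ψ (cen x) ∈ Set.center (Matrix (Fin n) (Fin n) E) := by
      rw [Semigroup.mem_center_iff]
      intro m
      obtain ⟨f, rfl⟩ := ψ.surjective m
      rw [← map_mul, ← map_mul]
      congr 1
      apply LinearMap.ext
      intro v
      show f ((x : Γ) • v) = (x : Γ) • f v
      exact end_comm f hx v
    rw [Matrix.center_eq_range] at h1
    obtain ⟨e, he⟩ := h1
    exact ⟨e, he.symm⟩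

theorem cyclic_of_iso (hI : Irr V (⊤ : Subgroup Γ)) (hF : ∀ g : Γ, (∀ v : V, g • v = v) → g = 1)
    (hA : A.Normal) (hab : A ≤ centralizer (A : Set Γ)) (hiso : IsIsotypic (RR V A) V) :
    IsCyclic A := by
  obtain ⟨n, E, hE, hEf, β, hn, hinj, hsc, -⟩ := frame hI hF hA hiso
  have h1 : ∀ a : A, ∃ e : E, β ⟨a, hab a.2⟩ = Matrix.scalar (Fin n) e := fun a => hsc _ a.2
  choose e he using h1
  have hne : Nonempty (Fin n) := ⟨⟨0, by omega⟩⟩
  have hsinj : Function.Injective (Matrix.scalar (Fin n) : E →+* Matrix (Fin n) (Fin n) E) :=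
    fun _ _ h => Matrix.scalar_inj.1 h
  let f : A →* E :=
    { toFun := e
      map_one' := by
        apply hsinj
        rw [← he, map_one]
        exact map_one β
      map_mul' := by
        intro a b
        apply hsinj
        rw [← he, map_mul, ← he, ← he, ← map_mul]
        rfl }
  refine isCyclic_of_injective_ringHom f ?_
  intro a b hab'
  have h2 : β ⟨a, hab a.2⟩ = β ⟨b, hab b.2⟩ := by
    rw [he, he]
    exact congrArg _ hab'
  have h3 := hinj h2
  exact Subtype.ext (congrArg (fun x : centralizer (A : Set Γ) => (x : Γ)) h3)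

omit [Finite Γ] in
theorem comm_central {S : Subgroup Γ} (hS : S.Normal) {g h : Γ}
    (key : ∀ x ∈ S, g * h * x * (g * h)⁻¹ = h * g * x * (h * g)⁻¹) :
    ∀ x ∈ S, x * ⁅g, h⁆ = ⁅g, h⁆ * x := by
  intro x hx
  have h1 := key ((h * g)⁻¹ * x * (h * g)⁻¹⁻¹) (hS.conj_mem _ hx _)
  have h2 : h * g * ((h * g)⁻¹ * x * (h * g)⁻¹⁻¹) * (h * g)⁻¹ = x := by group
  rw [h2] at h1
  have h3 : g * h * ((h * g)⁻¹ * x * (h * g)⁻¹⁻¹) * (g * h)⁻¹ = ⁅g, h⁆ * x * ⁅g, h⁆⁻¹ := by
    rw [commutatorElement_def]
    group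
  rw [h3] at h1
  have h4 := congrArg (fun y => y * ⁅g, h⁆) h1
  simp only [inv_mul_cancel_right] at h4
  exact h4.symm

omit [Finite Γ] in
/-- the derived subgroup centralizes cyclic normal subgroups -/
theorem comm_le_of_cyclic (hA : A.Normal) (hc : IsCyclic A) :
    ⁅(⊤ : Subgroup Γ), ⊤⁆ ≤ centralizer (A : Set Γ) := by
  obtain ⟨a, ha⟩ := hc.exists_generator
  have hpow : ∀ g : Γ, ∃ i : ℤ, g * (a : Γ) * g⁻¹ = (a : Γ) ^ i := by
    intro g
    obtain ⟨i, hi⟩ := Subgroup.mem_zpowers_iff.1 (ha ⟨g * a * g⁻¹, hA.conj_mem _ a.2 g⟩)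
    exact ⟨i, (congrArg Subtype.val hi).symm⟩
  have hconj : ∀ (g : Γ) (x : Γ) (i : ℤ), g * x ^ i * g⁻¹ = (g * x * g⁻¹) ^ i :=
    fun g x i => (conj_zpow).symm
  rw [commutator_le]
  intro g _ h _
  rw [mem_centralizer_iff]
  obtain ⟨i, hi⟩ := hpow g
  obtain ⟨j, hj⟩ := hpow h
  have h1 : g * h * a * (g * h)⁻¹ = h * g * a * (h * g)⁻¹ := by
    have e1 : g * h * a * (g * h)⁻¹ = g * (h * a * h⁻¹) * g⁻¹ := by group
    have e2 : h * g * a * (h * g)⁻¹ = h * (g * a * g⁻¹) * h⁻¹ := by group
    rw [e1, e2, hi, hj, hconj, hconj, hi, hj, ← zpow_mul, ← zpow_mul, mul_comm]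
  refine comm_central hA ?_
  intro x hx
  obtain ⟨k, hk⟩ := Subgroup.mem_zpowers_iff.1 (ha ⟨x, hx⟩)
  have h3 : x = (a : Γ) ^ k := (congrArg Subtype.val hk).symm
  rw [h3, hconj, hconj, h1]

/-- the quasi-primitive case -/
theorem isoCase (hS : Slv (⊤ : Subgroup Γ)) (hI : Irr V (⊤ : Subgroup Γ))
    (hF : ∀ g : Γ, (∀ v : V, g • v = v) → g = 1)
    (hall : ∀ K : Subgroup Γ, K.Normal → IsIsotypic (RR V K) V) :
    ds (⊤ : Subgroup Γ) 2 = ⊥ ∨
    ∃ (A B L : Subgroup Γ) (n : ℕ), ChiefF A B ∧ L.Normal ∧ A.relIndex B ≤ n * n ∧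
      (∀ U : Submodule (RR V L) V, IsSimpleModule (RR V L) U → Nat.card U ^ n = Nat.card V) ∧
      ∀ D : Subgroup Γ, D ≤ ⁅(⊤ : Subgroup Γ), ⊤⁆ → (∀ g ∈ D, ∀ b ∈ B, g * b * g⁻¹ * b⁻¹ ∈ A) →
        ⁅D, D⁆ ≤ L := by
  obtain ⟨A, ⟨hAn, hAab⟩, hmax⟩ := Set.exists_max_image
    {A : Subgroup Γ | A.Normal ∧ A ≤ centralizer (A : Set Γ)} (fun B => Nat.card B)
    (Set.toFinite _) ⟨⊥, inferInstance, bot_le⟩
  have hcyc := cyclic_of_iso hI hF hAn hAab (hall A hAn)
  have hcomm := comm_le_of_cyclic hAn hcyc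
  by_cases hCA : centralizer (A : Set Γ) ≤ A
  · left
    rw [ds_succ, ds_succ, ds_zero]
    have h1 : ⁅(⊤ : Subgroup Γ), ⊤⁆ ≤ A := hcomm.trans hCA
    rw [eq_bot_iff]
    exact (commutator_mono h1 h1).trans
      (commutator_eq_bot_iff_le_centralizer.2 hAab).le
  · right
    have hCn : (centralizer (A : Set Γ)).Normal := inferInstance
    obtain ⟨B, hBC, hch⟩ := exists_chief_above hS hAn hCn
      (lt_of_le_of_ne hAab fun h => hCA h.ge)
    have hBn := hch.nb
    set L := centralizer (B : Set Γ) with hL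
    have hLn : L.Normal := inferInstance
    have hAL : A ≤ L := by
      intro a ha
      rw [hL, mem_centralizer_iff]
      intro b hb
      exact (mem_centralizer_iff.1 (hBC hb) a ha).symm
    have hZ : ∀ z ∈ B, z ∈ L → z ∈ A := by
      have h1 : (B ⊓ L).Normal := inferInstance
      have h2 : B ⊓ L ≤ centralizer ((B ⊓ L : Subgroup Γ) : Set Γ) := by
        intro z hz
        rw [mem_centralizer_iff]
        intro y hy
        exact mem_centralizer_iff.1 hz.2 y hy.1
      have h3 : A ≤ B ⊓ L := le_inf hch.lt.le hAL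
      have h4 := hmax _ ⟨h1, h2⟩
      have h5 := Subgroup.eq_of_le_of_card_ge h3 h4
      intro z hz hzL
      rw [h5]
      exact ⟨hz, hzL⟩
    obtain ⟨n, E, hE, hEf, β, hn, hinj, hsc, hU⟩ := frame hI hF hLn (hall L hLn)
    refine ⟨A, B, L, n, hch, hLn, ?_, hU, ?_⟩
    · have hBL : B ≤ centralizer (L : Set Γ) := by
        intro b hb
        rw [mem_centralizer_iff]
        intro l hl
        exact (mem_centralizer_iff.1 hl b hb).symm
      have hne : Nonempty (Fin n) := ⟨⟨0, by omega⟩⟩
      have h1 := indep_card (F := E) (M := Matrix (Fin n) (Fin n) E)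
        (β.comp (Subgroup.inclusion hBL)) (A.subgroupOf B) (by
          intro x y
          obtain ⟨e, he⟩ := hsc (Subgroup.inclusion hBL (x * y * x⁻¹ * y⁻¹)) (hAL (hch.ab
            (commutator_mem_commutator x.2 y.2)))
          refine ⟨e, ?_⟩
          rw [MonoidHom.comp_apply, he]
          rfl) (by
          intro y y' hyy
          have h2 : ∀ x : B, x * y * x⁻¹ * y⁻¹ = x * y' * x⁻¹ * y'⁻¹ := by
            intro x
            have h3 := hinj (hyy x)
            exact Subgroup.inclusion_injective hBL h3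
          show ((y⁻¹ * y' : B) : Γ) ∈ A
          refine hZ _ (y⁻¹ * y').2 ?_
          rw [hL, mem_centralizer_iff]
          intro b hb
          have h3 := h2 (⟨b, hb⟩ : B)⁻¹
          rw [inv_inv] at h3
          have h4 : y * (⟨b, hb⟩ : B) * y⁻¹ = y' * ⟨b, hb⟩ * y'⁻¹ := by
            have h5 := congrArg (fun z => (⟨b, hb⟩ : B) * z) h3
            simp only [mul_assoc, mul_inv_cancel_left] at h5
            simpa only [mul_assoc] using h5
          have h6 : (⟨b, hb⟩ : B) * (y⁻¹ * y') = (y⁻¹ * y') * ⟨b, hb⟩ := by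
            have h7 := congrArg (fun z => y⁻¹ * z * y') h4
            simp only [mul_assoc, inv_mul_cancel_left, inv_mul_cancel, mul_one] at h7
            simpa only [mul_assoc] using h7
          exact congrArg Subtype.val h6)
      have h2 : Module.finrank E (Matrix (Fin n) (Fin n) E) = n * n := by
        rw [Module.finrank_matrix, Module.finrank_self]
        simp
      rw [h2] at h1
      exact h1
    · intro D hD hDB
      rw [commutator_le]
      intro g hg h hh
      rw [hL, mem_centralizer_iff]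
      refine comm_central hBn ?_
      intro b hb
      obtain ⟨z1, hz1, e1⟩ : ∃ z1 ∈ A, g * b * g⁻¹ = z1 * b := ⟨_, hDB g hg b hb, by group⟩
      obtain ⟨z2, hz2, e2⟩ : ∃ z2 ∈ A, h * b * h⁻¹ = z2 * b := ⟨_, hDB h hh b hb, by group⟩
      have c1 : g * z2 * g⁻¹ = z2 := by
        rw [← mem_centralizer_iff.1 (hcomm (hD hg)) z2 hz2]
        group
      have c2 : h * z1 * h⁻¹ = z1 := by
        rw [← mem_centralizer_iff.1 (hcomm (hD hh)) z1 hz1]
        group
      have c3 : z1 * z2 = z2 * z1 := mem_centralizer_iff.1 (hAab hz2) z1 hz1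
      calc g * h * b * (g * h)⁻¹ = g * (h * b * h⁻¹) * g⁻¹ := by group
        _ = (g * z2 * g⁻¹) * (g * b * g⁻¹) := by rw [e2]; group
        _ = (z2 * z1) * b := by rw [c1, e1, mul_assoc]
        _ = (z1 * z2) * b := by rw [c3]
        _ = (h * z1 * h⁻¹) * (h * b * h⁻¹) := by rw [c2, e2, mul_assoc]
        _ = h * (g * b * g⁻¹) * h⁻¹ := by rw [e1]; group
        _ = h * g * b * (h * g)⁻¹ := by group

end Pool.Agent.J4H54.DL
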