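import Pool.Agent.J4H54.DL.Iso

set_option autoImplicit false
set_option linter.unusedSectionVars false

/-!
# The derived length of a finite solvable group is `O(log log |G|)`
-/

namespace Pool.Agent.J4H54.DL

open Subgroup

theorem Bd.mono {m b m' b' : ℕ} (h : Bd m b) (hm : m' ≤ m) (hb : b ≤ b') : Bd m' b' := by
  intro Γ V _ _ _ _ _ hS hI hV g hg v
  exact h Γ V hS hI (hV.trans hm) g (ds_anti _ hb hg) v

/-- small modules -/
theorem bd_small : Bd 5 290 := by
  apply bd_of_faithful
  intro Γ V _ _ _ _ _ hS hI hV hF
  classical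
  have hV2 : Nat.card V ≤ 63 := by
    have h1 : Nat.card V < 2 ^ 6 := Nat.lt_pow_of_log_lt (by omega) (by omega)
    omega
  have hinj : Function.Injective (MulAction.toPermHom Γ V) := by
    intro g h hgh
    have h1 : g⁻¹ * h = 1 := by
      apply hF
      intro v
      have h2 : g • v = h • v := congrArg (fun p : Equiv.Perm V => p v) hgh
      rw [mul_smul, ← h2, inv_smul_smul]
    exact inv_mul_eq_one.1 h1
  have : Fintype V := Fintype.ofFinite V
  have h1 : Nat.card Γ ≤ (Nat.card V).factorial := by
    have h2 := Nat.card_le_card_of_injective _ hinj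
    rwa [Nat.card_eq_fintype_card (α := Equiv.Perm V), Fintype.card_perm,
      ← Nat.card_eq_fintype_card] at h2
  apply ds_trivial 290 ⊤ hS
  rw [Subgroup.card_top]
  calc Nat.card Γ ≤ (Nat.card V).factorial := h1
    _ ≤ (63).factorial := Nat.factorial_le hV2
    _ < 2 ^ (290 + 1) := by decide

/-- the bound -/
def bet (m : ℕ) : ℕ := 292 * Nat.log 2 m + 2

theorem log_div {m r l : ℕ} (hr : 2 ^ l ≤ r) : Nat.log 2 (m / r) ≤ Nat.log 2 m - l := by
  have h1 : m / r ≤ m / 2 ^ l := Nat.div_le_div_left hr (Nat.two_pow_pos l)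
  refine (Nat.log_mono_right h1).trans ?_
  rw [Nat.log_div_base_pow]

theorem log_small {l : ℕ} (hl : 3 ≤ l) : Nat.log 2 (2 * l + 1) + 1 ≤ l := by
  have h1 : 2 * l + 1 < 2 ^ l := by
    induction l, hl using Nat.le_induction with
    | base => norm_num
    | succ l hl ih =>
      have : 2 ^ (l + 1) = 2 * 2 ^ l := by ring
      omega
  have h2 := Nat.log_lt_of_lt_pow (by omega) h1
  omega

section

variable {Γ : Type} [Group Γ] {V : Type} [AddCommGroup V] [DistribMulAction Γ V]
  [Finite Γ] [Finite V] {L A B : Subgroup Γ}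

theorem iso_top (hI : Irr V (⊤ : Subgroup Γ)) : IsIsotypic (RR V (⊤ : Subgroup Γ)) V := by
  have hss : IsSemisimpleModule (RR V (⊤ : Subgroup Γ)) V :=
    semisimple hI (nm_of_normal inferInstance _)
  rw [isIsotypic_iff_isFullyInvariant_imp_bot_or_top]
  intro N _
  exact hI.sub_eq N fun h hh u hu => inv_of_sub N hh hu

theorem size_bound {U : Submodule (RR V L) V} {r m : ℕ} (h : Nat.card U ^ r ≤ Nat.card V)
    (hm : Nat.log 2 (Nat.card V) ≤ m) : Nat.log 2 (Nat.card U) * r ≤ m := by
  have h1 : Nat.card V < 2 ^ (m + 1) := Nat.lt_pow_of_log_lt (by omega) (by omega)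
  have h2 : 2 ^ (Nat.log 2 (Nat.card U)) ≤ Nat.card U :=
    Nat.pow_log_le_self 2 (Nat.card_pos (α := U)).ne'
  have h3 : 2 ^ (Nat.log 2 (Nat.card U) * r) < 2 ^ (m + 1) := by
    calc 2 ^ (Nat.log 2 (Nat.card U) * r) = (2 ^ (Nat.log 2 (Nat.card U))) ^ r := by rw [pow_mul]
      _ ≤ Nat.card U ^ r := Nat.pow_le_pow_left h2 r
      _ ≤ Nat.card V := h
      _ < _ := h1
  have h4 := (Nat.pow_lt_pow_iff_right (by omega : 1 < 2)).1 h3
  omega

theorem log_simple_pos {U : Submodule (RR V L) V} (hU : IsSimpleModule (RR V L) U) :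
    1 ≤ Nat.log 2 (Nat.card U) := by
  have h1 := IsSimpleModule.nontrivial (RR V L) U
  have h2 : 1 < Nat.card U := Finite.one_lt_card
  exact Nat.log_pos (by omega) (by omega)

/-- acting on the simple submodules of `L` -/
theorem ds_of_simples {m b : ℕ} (hB : Bd m b) (hI : Irr V (⊤ : Subgroup Γ))
    (hF : ∀ g : Γ, (∀ v : V, g • v = v) → g = 1) (hS : Slv (⊤ : Subgroup Γ)) (hL : L.Normal)
    (h : ∀ U : Submodule (RR V L) V, IsSimpleModule (RR V L) U →
      Nat.log 2 (Nat.card U) ≤ m) : ds L b = ⊥ := by
  rw [eq_bot_iff]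
  intro g hg
  rw [Subgroup.mem_bot]
  apply hF
  intro v
  exact triv_of_simples (semisimple hI (nm_of_normal hL _)) (fun U hU u hu =>
    simple_action hB (hS.mono le_top) U hU (h U hU) g hg u hu) v

theorem two_le_relIndex (h : L < B) : 2 ≤ L.relIndex B := by
  have h1 : L.relIndex B ≠ 1 := by
    rw [Ne, Subgroup.relIndex_eq_one]
    exact h.not_ge
  have h2 : L.relIndex B ≠ 0 := Subgroup.FiniteIndex.index_ne_zero
  omega

end

theorem bd_main (m : ℕ) : Bd m (bet m) := by
  induction m using Nat.strong_induction_on with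
  | _ m ih =>
    apply bd_of_faithful
    intro Γ V _ _ _ _ _ hS hI hV hF
    have hnt := hI.nt
    have hVlog : 1 ≤ Nat.log 2 (Nat.card V) := Nat.log_pos (by omega) Finite.one_lt_card
    have hm1 : 1 ≤ m := hVlog.trans hV
    by_cases hall : ∀ K : Subgroup Γ, K.Normal → IsIsotypic (RR V K) V
    · rcases isoCase hS hI hF hall with h2 | ⟨A, B, L, n, hch, hLn, hidx, hU, hD⟩
      · refine ds_bot_of_le ?_ h2
        unfold bet
        omega
      · have hss : IsSemisimpleModule (RR V L) V := semisimple hI (nm_of_normal hLn _)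
        obtain ⟨U, hUs⟩ := IsSemisimpleModule.exists_simple_submodule (RR V L) V
        have h1 := size_bound (hU U hUs).le hV
        have h2 := log_simple_pos hUs
        have hnm : n ≤ m := by nlinarith
        have hidx2 := two_le_relIndex hch.lt
        have hn2 : 2 ≤ n := by
          by_contra hcon
          have : n * n ≤ 1 * 1 := Nat.mul_le_mul (by omega) (by omega)
          omega
        have hUm : ∀ U : Submodule (RR V L) V, IsSimpleModule (RR V L) U →
            Nat.log 2 (Nat.card U) ≤ m / n := by
          intro U hUs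
          rw [Nat.le_div_iff_mul_le (by omega)]
          exact size_bound (hU U hUs).le hV
        have hmn : m / n < m := Nat.div_lt_self (by omega) (by omega)
        have hLb : ds L (bet (m / n)) = ⊥ := ds_of_simples (ih _ hmn) hI hF hS hLn hUm
        set l := Nat.log 2 n with hl
        have hl1 : 1 ≤ l := Nat.log_pos (by omega) (by omega)
        have hln : 2 ^ l ≤ n := Nat.pow_log_le_self 2 (by omega)
        have hlm : l ≤ Nat.log 2 m := Nat.log_mono_right hnm
        have hbmn : bet (m / n) ≤ 292 * (Nat.log 2 m - l) + 2 := by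
          unfold bet
          have := log_div (m := m) hln
          omega
        -- the combination
        have comb : ∀ b1 l1, Bd l1 b1 → Nat.log 2 (A.relIndex B) ≤ l1 →
            ds (⊤ : Subgroup Γ) (b1 + 1 + 1 + bet (m / n)) = ⊥ := by
          intro b1 l1 hb1 hl1'
          have h3 := chief_action hb1 hS hch hl1'
          have h4 := hD (ds ⊤ (b1 + 1)) (by
            have : ⁅(⊤ : Subgroup Γ), ⊤⁆ = ds ⊤ 1 := rfl
            rw [this]
            exact ds_anti _ (by omega)) (fun g hg b hb => h3 g (ds_succ_le _ _ hg) b hb)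
          exact ds_comp (m := b1 + 1 + 1) h4 hLb
        by_cases hl3 : 3 ≤ l
        · have h3 : Nat.log 2 (A.relIndex B) ≤ 2 * l + 1 := by
            have h4 : n < 2 ^ (l + 1) := Nat.lt_pow_succ_log_self (by omega) n
            have h5 : A.relIndex B < 2 ^ (2 * l + 1 + 1) := by
              calc A.relIndex B ≤ n * n := hidx
                _ < 2 ^ (l + 1) * 2 ^ (l + 1) := Nat.mul_lt_mul'' h4 h4
                _ = 2 ^ (2 * l + 1 + 1) := by rw [← pow_add]; congr 1; ring
            have h6 := Nat.log_lt_of_lt_pow (by omega) h5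
            omega
          have h4 : 2 * l + 1 < m := by
            have h5 : 2 * l + 1 < 2 ^ l := by
              have h6 := log_small hl3
              by_contra hcon
              push Not at hcon
              have h7 := Nat.log_mono_right (b := 2) hcon
              rw [Nat.log_pow (by omega)] at h7
              omega
            omega
          refine ds_bot_of_le ?_ (comb _ _ (ih _ h4) h3)
          have h5 := log_small hl3
          unfold bet at hbmn ⊢
          omega
        · have h3 : Nat.log 2 (A.relIndex B) ≤ 5 := by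
            have h4 : n < 2 ^ (l + 1) := Nat.lt_pow_succ_log_self (by omega) n
            have h5 : n < 2 ^ 3 := lt_of_lt_of_le h4 (Nat.pow_le_pow_right (by omega) (by omega))
            have h6 : n * n ≤ 7 * 7 := Nat.mul_le_mul (by omega) (by omega)
            have h7 : A.relIndex B < 2 ^ 6 := by omega
            have h8 := Nat.log_lt_of_lt_pow (by omega) h7
            omega
          refine ds_bot_of_le ?_ (comb _ _ bd_small h3)
          unfold bet at hbmn ⊢
          omega
    · push Not at hall
      obtain ⟨K0, hK0n, hK0⟩ := hall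
      obtain ⟨L, ⟨hLn, hLni⟩, hmax⟩ := Set.exists_max_image
        {K : Subgroup Γ | K.Normal ∧ ¬ IsIsotypic (RR V K) V} (fun B => Nat.card B)
        (Set.toFinite _) ⟨K0, hK0n, hK0⟩
      have hmax' : ∀ K : Subgroup Γ, K.Normal → L ≤ K → ¬ IsIsotypic (RR V K) V → K = L := by
        intro K h1 h2 h3
        exact (Subgroup.eq_of_le_of_card_ge h2 (hmax K ⟨h1, h3⟩)).symm
      have hLtop : L < ⊤ := by
        refine lt_of_le_of_ne le_top ?_
        intro h
        apply hLni
        rw [h]
        exact iso_top hI
      obtain ⟨B, -, hch⟩ := exists_chief_above hS hLn inferInstance hLtop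
      obtain ⟨h1, h2⟩ := nonIso hI hLn hLni hmax' hch
      set r := L.relIndex B with hr
      have hr2 : 2 ≤ r := two_le_relIndex hch.lt
      have hss : IsSemisimpleModule (RR V L) V := semisimple hI (nm_of_normal hLn _)
      obtain ⟨U, hUs⟩ := IsSemisimpleModule.exists_simple_submodule (RR V L) V
      have h3 := size_bound (h2 U hUs) hV
      have h4 := log_simple_pos hUs
      have hrm : r ≤ m := by nlinarith
      have hUm : ∀ U : Submodule (RR V L) V, IsSimpleModule (RR V L) U →
          Nat.log 2 (Nat.card U) ≤ m / r := by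
        intro U hUs
        rw [Nat.le_div_iff_mul_le (by omega)]
        exact size_bound (h2 U hUs) hV
      have hmr : m / r < m := Nat.div_lt_self (by omega) (by omega)
      have hLb : ds L (bet (m / r)) = ⊥ := ds_of_simples (ih _ hmr) hI hF hS hLn hUm
      set l := Nat.log 2 r with hl
      have hl1 : 1 ≤ l := Nat.log_pos (by omega) (by omega)
      have hlr : 2 ^ l ≤ r := Nat.pow_log_le_self 2 (by omega)
      have hlm : l ≤ Nat.log 2 m := Nat.log_mono_right hrm
      have hlm' : l < m := lt_of_lt_of_le (Nat.log_lt_self 2 (by omega)) hrm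
      have h5 : ds (⊤ : Subgroup Γ) (bet l) ≤ B := by
        intro g hg
        apply h1
        intro b hb
        exact chief_action (ih l hlm') hS hch le_rfl g hg b hb
      have h6 : ds B 1 ≤ L := hch.ab
      have h7 := ds_comp (ds_comp' h5 h6) hLb
      refine ds_bot_of_le ?_ h7
      have h8 := log_div (m := m) hlr
      have h9 : Nat.log 2 l < l := Nat.log_lt_self 2 (by omega)
      unfold bet
      omega

/-- **The derived length of a finite solvable group.** -/
theorem dl_bound {G : Type} [Group G] [Finite G] (hS : Slv (⊤ : Subgroup G)) {n : ℕ}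
    (hn : Nat.log 2 (Nat.card G) ≤ n) :
    derivedSeries G (293 * Nat.log 2 n + 3) = ⊥ := by
  set K := ds (⊤ : Subgroup G) (bet n) with hK
  have hKn : K.Normal := ds_normal _ _
  have h1 : ds K (Nat.log 2 n + 1) = ⊥ := by
    apply ds_nilp K
    · intro M hM hMK hMb h2
      obtain ⟨N, hN⟩ := exists_chief_below hS hM hMb
      have h3 : Nat.log 2 (N.relIndex M) ≤ n := by
        refine (Nat.log_mono_right ?_).trans hn
        exact (Nat.le_of_dvd Nat.card_pos (Subgroup.relIndex_dvd_card N M)).trans
          (Subgroup.card_le_card_group M)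
      have h4 := chief_action (bd_main n) hS hN h3
      have h5 : ⁅M, K⁆ ≤ N := by
        rw [commutator_comm, commutator_le]
        intro g hg x hx
        exact h4 g hg x hx
      rw [h2] at h5
      exact hN.lt.not_ge h5
    · have h2 : Nat.log 2 (Nat.card K) ≤ n :=
        (Nat.log_mono_right (Subgroup.card_le_card_group K)).trans hn
      exact lt_of_le_of_lt h2 (Nat.lt_pow_succ_log_self (by omega) n)
  rw [← ds_top]
  refine ds_bot_of_le ?_ (ds_comp (H := ⊤) (K := K) (m := bet n) le_rfl h1)
  unfold bet
  omega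

end Pool.Agent.J4H54.DL
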