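import Pool.Agent.J4H54.DL.Chief

set_option autoImplicit false
set_option linter.unusedSectionVars false

/-!
# The imprimitive case
-/

namespace Pool.Agent.J4H54.DL

open Subgroup

variable {Γ : Type} [Group Γ] {V : Type} [AddCommGroup V] [DistribMulAction Γ V]
  {L K B : Subgroup Γ}

theorem nz_of_normal (hL : L.Normal) (h : Γ) : Nz L h := by
  intro l
  constructor
  · intro h1
    have h2 := hL.conj_mem _ h1 h⁻¹
    have : h⁻¹ * (h * l * h⁻¹) * h⁻¹⁻¹ = l := by group
    rwa [this] at h2
  · intro h1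
    exact hL.conj_mem _ h1 h

theorem nm_of_normal (hL : L.Normal) (H : Subgroup Γ) : Nm H L := fun h _ => nz_of_normal hL h

theorem tw_mul (hL : L.Normal) (g h : Γ) (U : Submodule (RR V L) V) :
    tw (g * h) (nz_of_normal hL _) U =
      tw g (nz_of_normal hL _) (tw h (nz_of_normal hL _) U) := by
  ext x
  rw [mem_tw, mem_tw, mem_tw, mul_inv_rev, mul_smul]

theorem tw_one (hL : L.Normal) (U : Submodule (RR V L) V) :
    tw 1 (nz_of_normal hL _) U = U := by
  ext x
  rw [mem_tw, inv_one, one_smul]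

theorem tw_mem (hL : L.Normal) {l : Γ} (hl : l ∈ L) (U : Submodule (RR V L) V) :
    tw l (nz_of_normal hL _) U = U := by
  ext x
  rw [mem_tw]
  constructor
  · intro h
    have := inv_of_sub U hl h
    rwa [smul_inv_smul] at this
  · intro h
    exact inv_of_sub U (L.inv_mem hl) h

/-- twisting an endomorphism -/
theorem fi_tw (hL : L.Normal) (h : Γ) {N : Submodule (RR V L) V} (hN : N.IsFullyInvariant) :
    (tw h (nz_of_normal hL h) N).IsFullyInvariant := by
  intro f x hx
  show f x ∈ tw h (nz_of_normal hL h) N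
  rw [mem_tw] at hx ⊢
  set f' : V →+ V := (DistribSMul.toAddMonoidHom V h⁻¹).comp
    ((f : V →+ V).comp (DistribSMul.toAddMonoidHom V h)) with hf'
  have hcomm : ∀ l ∈ L, ∀ v, f' (l • v) = l • f' v := by
    intro l hl v
    show h⁻¹ • f (h • l • v) = l • h⁻¹ • f (h • v)
    have e1 : h • l • v = (h * l * h⁻¹) • h • v := by
      rw [smul_smul, smul_smul]
      congr 1
      group
    rw [e1, end_comm f (hL.conj_mem l hl h), smul_smul, smul_smul]
    congr 1
    group
  have h1 : lin f' hcomm (h⁻¹ • x) ∈ N := hN (lin f' hcomm) hx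
  have h2 : lin f' hcomm (h⁻¹ • x) = h⁻¹ • f x := by
    show h⁻¹ • f (h • h⁻¹ • x) = h⁻¹ • f x
    rw [smul_inv_smul]
  rwa [h2] at h1

/-- isotypic components are minimal fully invariant submodules -/
theorem mem_comp_iff (hss : IsSemisimpleModule (RR V L) V) {c : Submodule (RR V L) V} :
    c ∈ isotypicComponents (RR V L) V ↔ c ≠ ⊥ ∧ c.IsFullyInvariant ∧
      ∀ N : Submodule (RR V L) V, N.IsFullyInvariant → N ≤ c → N = ⊥ ∨ N = c := by
  constructor
  · intro hc
    refine ⟨(bot_lt_isotypicComponents hc).ne', .of_mem_isotypicComponents hc, ?_⟩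
    intro N hN hNc
    rcases IsSemisimpleModule.eq_bot_or_exists_simple_le N with h | ⟨S, hS, hSs⟩
    · exact Or.inl h
    · right
      refine le_antisymm hNc ?_
      rw [eq_isotypicComponent_of_le hc (hS.trans hNc)]
      exact (isFullyInvariant_iff_le_imp_isotypicComponent_le.1 hN) S hS
  · rintro ⟨h1, h2, h3⟩
    rcases IsSemisimpleModule.eq_bot_or_exists_simple_le c with h | ⟨S, hS, hSs⟩
    · exact absurd h h1
    · have h4 := (isFullyInvariant_iff_le_imp_isotypicComponent_le.1 h2) S hS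
      have h5 := (h3 _ (.isotypicComponent (RR V L) V S) h4).resolve_left
        (bot_lt_isotypicComponent S).ne'
      exact ⟨S, hSs, h5.symm⟩

theorem tw_comp (hss : IsSemisimpleModule (RR V L) V) (hL : L.Normal) (h : Γ)
    {c : Submodule (RR V L) V} (hc : c ∈ isotypicComponents (RR V L) V) :
    tw h (nz_of_normal hL h) c ∈ isotypicComponents (RR V L) V := by
  rw [mem_comp_iff hss] at hc ⊢
  obtain ⟨h1, h2, h3⟩ := hc
  refine ⟨?_, fi_tw hL h h2, ?_⟩
  · intro h4
    apply h1
    have h5 : twIso h (nz_of_normal hL h) c = ⊥ := h4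
    exact (_root_.map_eq_bot_iff _).1 h5
  · intro N hN hNc
    have h4 : tw h⁻¹ (nz_of_normal hL _) N ≤ c := by
      intro x hx
      rw [mem_tw, inv_inv] at hx
      have h5 := hNc hx
      rwa [apply_mem_tw] at h5
    have h6 : tw h (nz_of_normal hL _) (tw h⁻¹ (nz_of_normal hL _) N) = N := by
      rw [← tw_mul hL]
      have : ∀ g, g = 1 → tw g (nz_of_normal hL g) N = N := by
        rintro g rfl
        exact tw_one hL N
      exact this _ (mul_inv_cancel h)
    rcases h3 _ (fi_tw hL h⁻¹ hN) h4 with h5 | h5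
    · left
      rw [← h6, h5]
      exact map_bot (twIso h (nz_of_normal hL h))
    · right
      rw [← h6, h5]

theorem fi_lift (hss : IsSemisimpleModule (RR V K) V) (hLK : L ≤ K)
    {c : Submodule (RR V L) V} (hc : c.IsFullyInvariant) (hK : ∀ k ∈ K, ∀ v ∈ c, k • v ∈ c)
    (hiso : IsIsotypic (RR V K) V) : c = ⊥ ∨ c = ⊤ := by
  obtain ⟨c', hmem⟩ : ∃ c' : Submodule (RR V K) V, ∀ x, x ∈ c' ↔ x ∈ c :=
    ⟨sub c.toAddSubgroup hK, fun x => mem_sub⟩
  have h1 : c'.IsFullyInvariant := by
    intro f x hx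
    rw [Submodule.mem_comap, hmem]
    rw [hmem] at hx
    obtain ⟨g, hg⟩ : ∃ g : V →+ V, ∀ v, g v = f v := ⟨f.toAddMonoidHom, fun _ => rfl⟩
    have h2 : ∀ l ∈ L, ∀ v, g (l • v) = l • g v := by
      intro l hl v
      rw [hg, hg]
      exact end_comm f (hLK hl) v
    have h3 : (lin g h2) x ∈ c := hc (lin g h2) hx
    have h4 : (lin g h2) x = g x := rfl
    rw [h4, hg] at h3
    exact h3
  rcases (isIsotypic_iff_isFullyInvariant_imp_bot_or_top.1 hiso) c' h1 with h2 | h2
  · left
    ext x
    rw [← hmem, h2]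
    simp
  · right
    ext x
    rw [← hmem, h2]
    simp

variable [Finite Γ] [Finite V]

/-- the imprimitive case -/
theorem nonIso (hI : Irr V (⊤ : Subgroup Γ)) (hL : L.Normal)
    (hniso : ¬ IsIsotypic (RR V L) V)
    (hmax : ∀ K : Subgroup Γ, K.Normal → L ≤ K → ¬ IsIsotypic (RR V K) V → K = L)
    (hB : ChiefF L B) :
    (∀ h : Γ, (∀ b ∈ B, h * b * h⁻¹ * b⁻¹ ∈ L) → h ∈ B) ∧
    ∀ U : Submodule (RR V L) V, IsSimpleModule (RR V L) U →
      Nat.card U ^ (L.relIndex B) ≤ Nat.card V := by
  classical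
  have hnt := hI.nt
  have hss : IsSemisimpleModule (RR V L) V := semisimple hI (nm_of_normal hL _)
  set Ω := isotypicComponents (RR V L) V with hΩ
  have hFin : Finite (Submodule (RR V L) V) :=
    Finite.of_injective (fun U : Submodule (RR V L) V => (U : Set V)) SetLike.coe_injective
  have hntop : ∀ c ∈ Ω, c ≠ ⊤ := by
    intro c hc h
    apply hniso
    have h1 := IsIsotypic.isotypicComponents hc
    rw [h] at h1
    exact (LinearEquiv.isIsotypic_iff (Submodule.topEquiv (R := RR V L) (M := V))).1 h1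
  -- the kernel of the action on the components
  let Kr : Subgroup Γ :=
    { carrier := {h | ∀ c ∈ Ω, ∀ v, h • v ∈ c ↔ v ∈ c}
      one_mem' := fun c _ v => by rw [one_smul]
      mul_mem' := by
        intro g h hg hh c hc v
        rw [mul_smul, hg c hc, hh c hc]
      inv_mem' := by
        intro h hh c hc v
        rw [← hh c hc (h⁻¹ • v), smul_inv_smul] }
  have hKr : ∀ h, h ∈ Kr ↔ ∀ c ∈ Ω, ∀ v, h • v ∈ c ↔ v ∈ c := fun h => Iff.rfl
  have hKn : Kr.Normal := by
    constructor
    intro n hn g c hc v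
    have hc' := tw_comp hss hL g⁻¹ hc
    have e1 : ∀ x, g • x ∈ c ↔ x ∈ tw g⁻¹ (nz_of_normal hL g⁻¹) c := by
      intro x
      rw [mem_tw, inv_inv]
    rw [mul_smul, mul_smul, e1, hn _ hc', ← e1, smul_inv_smul]
  have hLK : L ≤ Kr := by
    intro l hl c _ v
    constructor
    · intro h
      have := inv_of_sub c (L.inv_mem hl) h
      rwa [inv_smul_smul] at this
    · intro h
      exact inv_of_sub c hl h
  obtain ⟨c0, hc0⟩ : Ω.Nonempty := by
    by_contra hcon
    rw [Set.not_nonempty_iff_eq_empty] at hcon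
    have h1 := sSup_isotypicComponents (RR V L) V
    rw [← hΩ, hcon, sSup_empty] at h1
    exact bot_ne_top h1
  have hKL : Kr = L := by
    apply hmax Kr hKn hLK
    intro hiso
    rcases fi_lift (semisimple hI (nm_of_normal hKn _)) hLK (.of_mem_isotypicComponents hc0)
      (fun k hk v hv => (hk c0 hc0 v).2 hv) hiso with h | h
    · exact (bot_lt_isotypicComponents hc0).ne' h
    · exact hntop c0 hc0 h
  have hBn := hB.nb
  have hLB := hB.lt.le
  have hBiso : IsIsotypic (RR V B) V := by
    by_contra hcon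
    exact hB.lt.ne' (hmax B hBn hLB hcon)
  -- transitivity
  have htrans : ∀ c ∈ Ω, ∃ b ∈ B, c = tw b (nz_of_normal hL b) c0 := by
    intro c2 hc2
    set s : Set (Submodule (RR V L) V) := {c | ∃ b ∈ B, c = tw b (nz_of_normal hL b) c0} with hs
    have hsΩ : s ⊆ Ω := by
      rintro c ⟨b, _, rfl⟩
      exact tw_comp hss hL b hc0
    have hsB : ∀ b ∈ B, tw b (nz_of_normal hL b) (sSup s) = sSup s := by
      intro b hb
      rw [← twIso_apply, OrderIso.map_sSup, ← sSup_image]
      congr 1
      ext c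
      constructor
      · rintro ⟨_, ⟨b', hb', rfl⟩, rfl⟩
        exact ⟨b * b', B.mul_mem hb hb', (tw_mul hL b b' c0).symm⟩
      · rintro ⟨b', hb', rfl⟩
        refine ⟨tw (b⁻¹ * b') (nz_of_normal hL _) c0, ⟨b⁻¹ * b', B.mul_mem (B.inv_mem hb) hb', rfl⟩,
          ?_⟩
        rw [twIso_apply, ← tw_mul hL]
        have : ∀ g, g = b' → tw g (nz_of_normal hL g) c0 = tw b' (nz_of_normal hL b') c0 := by
          rintro g rfl
          rfl
        exact this _ (by group)
    have h1 := fi_lift (semisimple hI (nm_of_normal hBn _)) hLB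
      (c := sSup s) (isFullyInvariant_iff_sSup_isotypicComponents.2 ⟨s, hsΩ, rfl⟩) (by
        intro b hb v hv
        rw [← hsB b hb]
        exact apply_mem_tw.2 hv) hBiso
    have hc0s : c0 ≤ sSup s := le_sSup ⟨1, B.one_mem, (tw_one hL c0).symm⟩
    have h2 : sSup s = ⊤ := by
      refine h1.resolve_left ?_
      intro h
      rw [h, le_bot_iff] at hc0s
      exact (bot_lt_isotypicComponents hc0).ne' hc0s
    by_contra hcon
    have h3 : s ⊆ Ω \ {c2} := by
      intro c hc
      refine ⟨hsΩ hc, ?_⟩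
      rintro rfl
      exact hcon hc
    have h4 : Disjoint c2 (sSup (Ω \ {c2})) := sSupIndep_isotypicComponents (RR V L) V hc2
    have h5 : sSup (Ω \ {c2}) = ⊤ := top_unique (h2 ▸ sSup_le_sSup h3)
    rw [h5, disjoint_top] at h4
    exact (bot_lt_isotypicComponents hc2).ne' h4
  -- an element fixing `c0` and commuting with `B` modulo `L` lies in `L`
  have hreg : ∀ g : Γ, (∀ b ∈ B, g * b * g⁻¹ * b⁻¹ ∈ L) → tw g (nz_of_normal hL g) c0 = c0 →
      g ∈ L := by
    intro g hg hgc
    rw [← hKL, hKr]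
    intro c hc v
    obtain ⟨b, hb, rfl⟩ := htrans c hc
    have h1 : tw g (nz_of_normal hL g) (tw b (nz_of_normal hL b) c0) =
        tw b (nz_of_normal hL b) c0 := by
      rw [← tw_mul hL]
      have h2 : ∀ x, x = (g * b * g⁻¹ * b⁻¹) * (b * g) → tw x (nz_of_normal hL x) c0 =
          tw b (nz_of_normal hL b) c0 := by
        rintro x rfl
        rw [tw_mul hL, tw_mem hL (hg b hb), tw_mul hL, hgc]
      exact h2 _ (by group)
    conv_lhs => rw [← h1]
    exact apply_mem_tw
  constructor
  · intro h hh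
    obtain ⟨b, hb, hbc⟩ := htrans _ (tw_comp hss hL h hc0)
    have h1 : b⁻¹ * h ∈ L := by
      apply hreg
      · intro b' hb'
        have h2 : b⁻¹ * h * b' * (b⁻¹ * h)⁻¹ * b'⁻¹ =
            (b⁻¹ * (h * b' * h⁻¹ * b'⁻¹) * b⁻¹⁻¹) * (b⁻¹ * b' * b⁻¹⁻¹ * b'⁻¹) := by group
        rw [h2]
        refine L.mul_mem (hL.conj_mem _ (hh b' hb') b⁻¹) (hB.ab ?_)
        exact commutator_mem_commutator (B.inv_mem hb) hb'
      · rw [tw_mul hL, hbc, ← tw_mul hL]
        have : ∀ x, x = 1 → tw x (nz_of_normal hL x) c0 = c0 := by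
          rintro x rfl
          exact tw_one hL c0
        exact this _ (inv_mul_cancel b)
    have h2 := B.mul_mem hb (hLB h1)
    rwa [mul_inv_cancel_left] at h2
  · intro U hU
    -- all components have the same cardinality
    have hcardc : ∀ c ∈ Ω, Nat.card c = Nat.card c0 := by
      intro c hc
      obtain ⟨b, hb, rfl⟩ := htrans c hc
      refine (Nat.card_congr (Equiv.ofBijective
        (fun x : c0 => (⟨b • (x : V), apply_mem_tw.2 x.2⟩ : tw b (nz_of_normal hL b) c0))
        ⟨?_, ?_⟩)).symm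
      · intro x y hxy
        have h1 : b • (x : V) = b • (y : V) := congrArg Subtype.val hxy
        exact Subtype.ext (MulAction.injective b h1)
      · rintro ⟨y, hy⟩
        rw [mem_tw] at hy
        exact ⟨⟨b⁻¹ • y, hy⟩, Subtype.ext (smul_inv_smul b y)⟩
    have hFΩ : Finite Ω := inferInstance
    have : Fintype Ω := Fintype.ofFinite Ω
    have hprod : Nat.card V = Nat.card c0 ^ Nat.card Ω := by
      have ind := (sSupIndep_iff _).1 (sSupIndep_isotypicComponents (RR V L) V)
      have htop : (⨆ c : Ω, (c : Submodule (RR V L) V)) = ⊤ := by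
        rw [← sSup_eq_iSup']
        exact sSup_isotypicComponents (RR V L) V
      have e := ind.linearEquiv htop
      rw [← Nat.card_congr e.toEquiv, Nat.card_congr DFinsupp.equivFunOnFintype, Nat.card_pi]
      rw [Finset.prod_congr rfl (fun c _ => hcardc c.1 c.2), Finset.prod_const, Finset.card_univ,
        Nat.card_eq_fintype_card (α := Ω)]
    have hΩcard : L.relIndex B ≤ Nat.card Ω := by
      have h1 : L.relIndex B = Nat.card (B ⧸ L.subgroupOf B) := rfl
      rw [h1]
      refine Nat.card_le_card_of_injective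
        (fun q : B ⧸ L.subgroupOf B => (⟨tw (q.out : Γ) (nz_of_normal hL _) c0,
          tw_comp hss hL _ hc0⟩ : Ω)) ?_
      intro p q hpq
      have h2 : tw (p.out : Γ) (nz_of_normal hL _) c0 = tw (q.out : Γ) (nz_of_normal hL _) c0 :=
        congrArg Subtype.val hpq
      have h3 : ((q.out : Γ))⁻¹ * (p.out : Γ) ∈ L := by
        apply hreg
        · intro b hb
          exact hB.ab (commutator_mem_commutator
            (B.mul_mem (B.inv_mem q.out.2) p.out.2) hb)
        · rw [tw_mul hL, h2, ← tw_mul hL]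
          have : ∀ x, x = 1 → tw x (nz_of_normal hL x) c0 = c0 := by
            rintro x rfl
            exact tw_one hL c0
          exact this _ (inv_mul_cancel _)
      have h4 : (q.out)⁻¹ * p.out ∈ L.subgroupOf B := h3
      rw [← QuotientGroup.out_eq' p, ← QuotientGroup.out_eq' q]
      exact (QuotientGroup.eq.2 h4).symm
    have hUc : Nat.card U ≤ Nat.card c0 := by
      have h1 : isotypicComponent (RR V L) V U ∈ Ω := ⟨U, hU, rfl⟩
      rw [← hcardc _ h1]
      exact Nat.card_le_card_of_injective (Submodule.inclusion U.le_isotypicComponent)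
        (Submodule.inclusion_injective _)
    calc Nat.card U ^ L.relIndex B ≤ Nat.card c0 ^ L.relIndex B := Nat.pow_le_pow_left hUc _
      _ ≤ Nat.card c0 ^ Nat.card Ω := Nat.pow_le_pow_right Nat.card_pos hΩcard
      _ = Nat.card V := hprod.symm

end Pool.Agent.J4H54.DL
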